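import Pool.Agent.H2.VN3

namespace Pool.Agent.Results.MP_ad771b_al.Slope

open Pool.Agent.H2.VN Filter Topology

theorem result (K : Type) [Field K] : ∃ I p : Ideal (MvPolynomial (Fin 4) K),
    IsHom I ∧ I ≠ ⊥ ∧ I ≠ ⊤ ∧ Maximal (· ∈ AssInf I) p ∧ alpha I = 2 ∧
      (∀ k ≥ 1, vloc (I ^ k) p = 3 * k + 1) ∧
      Tendsto (fun k : ℕ => (vloc (I ^ k) p : ℝ) / k) atTop (𝓝 3) := by
  have h : ∀ k ≥ 1, vloc (Ex2.I K ^ k) (Pool.Agent.H2.Mon.PX K {0, 1}) = 3 * k + 1 := by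
    rintro (_ | k) hk
    exacts [absurd hk (by simp), Ex2.vloc_eq k]
  refine ⟨Ex2.I K, _, Ex2.hom, Ex2.ne_bot, Ex2.ne_top, ⟨⟨1, ?_⟩, ?_⟩, Ex2.alpha_eq, h, ?_⟩
  · rintro (_ | k) hk
    exacts [absurd hk (by simp), Ex2.ass k]
  · rintro q ⟨N, hN⟩ hq
    exact (Ex2.max N (hN _ (by omega)) hq).le
  · have := (tendsto_one_div_atTop_nhds_zero_nat (𝕜 := ℝ)).const_add 3
    rw [add_zero] at this
    refine this.congr' ?_
    filter_upwards [eventually_ge_atTop 1] with k hk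
    have : (k : ℝ) ≠ 0 := by positivity
    rw [h k hk]
    push_cast
    field_simp

end Pool.Agent.Results.MP_ad771b_al.Slope
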